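import Pool.Agent.Lib.H8AF.Final

/-!
# An overgroup of the Grigorchuk group with the congruence subgroup property

The definitions used in the statement: `H8AF.pa, pb, pc, pd` (the generators as permutations of the
vertices `List Bool` of the binary tree), `H8AF.Gam` (the first Grigorchuk group), `H8AF.Comp` (the
profinite completion, from Mathlib), `H8AF.eta` (the canonical map), `H8AF.HasCSP`.
A proof on paper is in `Pool/Agent/Lib/H8AF/README.md`.
-/

namespace Pool.Agent.Results.MP_af9c8b_al.GrigorchukOvergroup

open H8AF Equiv

/-- There is an element `g` of the profinite completion of the first Grigorchuk group, not in the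
group, such that the subgroup generated by the group and `g` has the congruence subgroup property.
Moreover `g` is an involution with `g = c (a g a b)^7 (a g a)`. -/
theorem result : ∃ g : Comp Gam, g ∉ Set.range (eta (G := Gam)) ∧
    HasCSP (Subgroup.closure (Set.range (eta (G := Gam)) ∪ {g})) ∧
    ∃ a b c : Gam, (a : Perm (List Bool)) = pa ∧ (b : Perm (List Bool)) = pb ∧
      (c : Perm (List Bool)) = pc ∧ g * g = 1 ∧
      g = eta c * ((eta a * g * eta a) * eta b) ^ 7 * (eta a * g * eta a) :=
  main

end Pool.Agent.Results.MP_af9c8b_al.GrigorchukOvergroup
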